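import Pool.Agent.V11245.OmegaPerf
import Pool.Agent.Helper330.DPF.P_holds
import Pool.Agent.Helper330.DPF.P_omegaOne
import Pool.Agent.Helper330.DPF.P_existsDec
import Pool.Agent.Helper330.DPF.P_botCond
import Pool.Agent.Helper330.DPK.P_dpKF
import Pool.Agent.Helper330.DPK.Coh

/-!
# It is consistent that the question has a negative answer

(1) Some notion of forcing preserves `ω₁` and forces the principle `◊⁺`.
(2) `◊⁺` implies that for `κ = ω₁` some closed continuous image of `κ^κ` cannot be made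
`(ω+1)`-perfect by removing at most `κ^{<κ}` points.
-/

set_option autoImplicit false

namespace Pool.Agent.Results.MP_e6371f_lc.ConsistentlyNot

open Cardinal Set Pool.Agent.V11245.OmegaPerf
open Pool.Agent.Helper330.DPF (OmegaOnePreserved DiamondPlusHolds DiamondPlus W1 existsDec PD
  botCond omegaOne holds)

/-- `◊⁺` implies CH. -/
theorem ch_of (h : DiamondPlus) : (𝔠 : Cardinal.{0}) = ℵ₁ := by
  apply le_antisymm
  · obtain ⟨B, hB⟩ := h
    -- an injection of `ℕ` into `W1`
    have hW : #W1 = ℵ₁ := by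
      show #(Cardinal.aleph 1 : Cardinal.{0}).ord.ToType = _
      rw [Cardinal.mk_ord_toType]
    obtain ⟨j⟩ : Nonempty (ℕ ↪ W1) := by
      rw [← Cardinal.lift_mk_le', hW]
      simp
    have hbd : ∃ a : W1, ∀ n, j n < a := by
      have hub : ∃ a : W1, ∀ n, j n ≤ a := by
        by_contra hcon
        push Not at hcon
        have : (⋃ n, Set.Iio (j n)) = (Set.univ : Set W1) := by
          ext a
          simp only [mem_iUnion, mem_Iio, mem_univ, iff_true]
          exact hcon a
        have hct : (Set.univ : Set W1).Countable := by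
          rw [← this]
          refine Set.countable_iUnion fun n => ?_
          rw [← Cardinal.le_aleph0_iff_set_countable]
          have h := Cardinal.mk_Iio_ord_toType (j n)
          have h2 : (Cardinal.aleph 1 : Cardinal.{0}) = Order.succ Cardinal.aleph0 := by
            rw [Cardinal.succ_aleph0]
          exact Order.lt_succ_iff.1 (lt_of_lt_of_eq h h2)
        have := Cardinal.le_aleph0_iff_set_countable.2 hct
        rw [Cardinal.mk_univ, hW] at this
        exact absurd this (not_le.2 Cardinal.aleph0_lt_aleph_one)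
      obtain ⟨a, ha⟩ := hub
      obtain ⟨C, hC, -⟩ := hB (fun _ => True)
      obtain ⟨b, hb, -⟩ := hC a
      exact ⟨b, fun n => (ha n).trans_lt hb⟩
    obtain ⟨a₀, ha₀⟩ := hbd
    have key : ∀ X : Set ℕ, ∃ p : W1 × ℕ, (∀ n, j n < p.1) ∧
        ∀ n, (n ∈ X ↔ B p.1 p.2 (j n)) := by
      intro X
      obtain ⟨C, hC1, -, hC3⟩ := hB (fun x => ∃ n ∈ X, j n = x)
      obtain ⟨b, hb, hCb⟩ := hC1 a₀
      obtain ⟨⟨n, hn⟩, -⟩ := hC3 b hCb
      refine ⟨(b, n), fun m => (ha₀ m).trans hb, fun m => ?_⟩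
      rw [← hn (j m) ((ha₀ m).trans hb)]
      constructor
      · intro hm
        exact ⟨m, hm, rfl⟩
      · rintro ⟨k, hk, hkm⟩
        rwa [← j.injective hkm]
    choose f _ hf using key
    have hinj : Function.Injective f := by
      intro X Y hXY
      ext n
      rw [hf X n, hf Y n, hXY]
    have h1 := Cardinal.mk_le_of_injective hinj
    rw [Cardinal.mk_set, Cardinal.mk_nat, Cardinal.two_power_aleph0, Cardinal.mk_prod,
      Cardinal.lift_id, Cardinal.lift_id, hW, Cardinal.mk_nat] at h1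
    refine h1.trans ?_
    rw [Cardinal.mul_aleph0_eq (Cardinal.aleph0_le_aleph 1)]
  · exact Cardinal.aleph_one_le_continuum

/-- `◊⁺` implies Kurepa's hypothesis. -/
theorem kh_of (h : DiamondPlus) : KurepaHypothesis.{0} := by
  have hCH := ch_of h
  have hKF : Pool.Agent.Helper330.DPK.KF := Pool.Agent.Helper330.DPK.dpKF
    Pool.Agent.Helper330.DPK.Coh.cg Pool.Agent.Helper330.DPK.Coh.cg_fin
    Pool.Agent.Helper330.DPK.Coh.cg_coh h
  obtain ⟨S, hS, hX⟩ := hKF
  refine ⟨{A | ∃ s ∈ S, ∃ n : ℕ, A = {x | s x = n}}, ?_, ?_⟩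
  · by_contra hcon
    rw [not_le] at hcon
    have hle : #{A : Set (Idx (ℵ₁ : Cardinal.{0})) | ∃ s ∈ S, ∃ n : ℕ, A = {x | s x = n}} ≤
        ℵ₁ := by
      have h2 : (ℵ_ 2 : Cardinal.{0}) = Order.succ ℵ₁ := by
        rw [Cardinal.succ_aleph]
        norm_num [Order.succ_eq_add_one, one_add_one_eq_two]
      rw [h2] at hcon
      exact Order.lt_succ_iff.1 hcon
    choose b hb1 hb2 using hX
    let F : (W1 → Prop) → (ℕ → ℕ →
        {A : Set (Idx (ℵ₁ : Cardinal.{0})) | ∃ s ∈ S, ∃ n : ℕ, A = {x | s x = n}}) :=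
      fun X n k => ⟨{x | b X n x = k}, ⟨b X n, hb1 X n, k, rfl⟩⟩
    have hF : Function.Injective F := by
      intro X Y hXY
      have hbb : ∀ n x, b X n x = b Y n x := by
        intro n x
        have h1 : F X n (b X n x) = F Y n (b X n x) := by rw [hXY]
        have h2 : {y | b X n y = b X n x} = {y | b Y n y = b X n x} :=
          congrArg Subtype.val h1
        have h3 : x ∈ {y | b Y n y = b X n x} := by
          rw [← h2]
          rfl
        exact h3.symm
      funext x
      apply propext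
      have hX1 := hb2 X x
      have hY1 := hb2 Y x
      have h0 : b X (b X 0 x + 1) x = b Y (b Y 0 x + 1) x := by
        rw [hbb 0 x, hbb _ x]
      constructor
      · intro h1
        by_contra h2
        have := hX1.1 h1
        rw [h0, hY1.2 h2] at this
        exact absurd this (by norm_num)
      · intro h1
        by_contra h2
        have := hX1.2 h2
        rw [h0, hY1.1 h1] at this
        exact absurd this (by norm_num)
    have hc := Cardinal.mk_le_of_injective hF
    have hW : #W1 = ℵ₁ := by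
      show #(Cardinal.aleph 1 : Cardinal.{0}).ord.ToType = _
      rw [Cardinal.mk_ord_toType]
    have e1 : #(W1 → Prop) = 2 ^ (ℵ₁ : Cardinal.{0}) := by
      have := Cardinal.mk_set (α := W1)
      rw [hW] at this
      exact this
    rw [e1] at hc
    have e2 : #(ℕ → ℕ →
        {A : Set (Idx (ℵ₁ : Cardinal.{0})) | ∃ s ∈ S, ∃ n : ℕ, A = {x | s x = n}}) ≤
        ℵ₁ := by
      rw [← Cardinal.power_def, ← Cardinal.power_def, ← Cardinal.power_mul]
      calc _ ≤ (ℵ₁ : Cardinal.{0}) ^ (#ℕ * #ℕ) := Cardinal.power_le_power_right hle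
        _ = ℵ₁ := by
            rw [Cardinal.mk_nat, Cardinal.aleph0_mul_aleph0, ← hCH,
              Cardinal.continuum_power_aleph0]
    exact absurd (hc.trans e2) (not_le.2 (Cardinal.cantor _))
  · intro α
    obtain ⟨c, hc⟩ := hS α
    have : ((fun A : Set (Idx (ℵ₁ : Cardinal.{0})) => A ∩ Iio α) ''
        {A | ∃ s ∈ S, ∃ n : ℕ, A = {x | s x = n}}) ⊆
        ⋃ n : ℕ, (fun s : W1 → ℕ => {x | s x = n} ∩ Iio α) '' S := by
      rintro _ ⟨_, ⟨s, hs, n, rfl⟩, rfl⟩
      simp only [mem_iUnion]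
      exact ⟨n, s, hs, rfl⟩
    refine Set.Countable.mono this (Set.countable_iUnion fun n => ?_)
    have : ((fun s : W1 → ℕ => {x | s x = n} ∩ Iio α) '' S) ⊆
        Set.range fun k : ℕ => {x | ∃ s ∈ S, c s = k ∧ s x = n} ∩ Iio α := by
      rintro _ ⟨s, hs, rfl⟩
      refine ⟨c s, ?_⟩
      ext x
      simp only [mem_inter_iff, mem_ofPred_eq, mem_Iio]
      constructor
      · rintro ⟨⟨t, ht, hts, htx⟩, hx⟩
        exact ⟨(hc t ht s hs hts x hx.le).symm.trans htx, hx⟩
      · rintro ⟨h1, h2⟩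
        exact ⟨⟨s, hs, rfl, h1⟩, h2⟩
    exact (Set.countable_range _).mono this

/-- (1) Some notion of forcing preserves `ω₁` and forces `◊⁺`.
(2) `◊⁺` implies that some closed set `E ⊆ ω₁^ω₁`, a continuous image of `ω₁^ω₁`, has
`E \ X` not `(ω+1)`-perfect for every `X ⊆ E` with `|X| ≤ ω₁^{<ω₁}`. -/
theorem result :
    (∃ (P : Type) (_ : Preorder P), Nonempty P ∧ ∀ p : P,
      p ∈ OmegaOnePreserved P ∧ p ∈ DiamondPlusHolds P) ∧
    (DiamondPlus →
      ∃ E : Set (Pt (ℵ₁ : Cardinal.{0})), IsClosed E ∧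
        (∃ f : Pt (ℵ₁ : Cardinal.{0}) → Pt (ℵ₁ : Cardinal.{0}), Continuous f ∧ range f = E) ∧
        ∀ X ⊆ E, #X ≤ (ℵ₁ : Cardinal.{0}) ^< ℵ₁ → ¬ OmegaPlusOnePerfect (E \ X)) := by
  obtain ⟨D, hD⟩ := existsDec
  refine ⟨⟨PD D, inferInstance, botCond D, fun p => ⟨omegaOne p, holds hD p⟩⟩, fun h => ?_⟩
  obtain ⟨𝓑, hB, htr⟩ := thinBig_of_CH_KH (ch_of h) (kh_of h)
  obtain ⟨𝓒, hC, htr'⟩ := exists_points Cardinal.isRegular_aleph_one 𝓑 hB htr
  exact exists_image Cardinal.isRegular_aleph_one Cardinal.aleph0_lt_aleph_one 𝓒 hC htr'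

end Pool.Agent.Results.MP_e6371f_lc.ConsistentlyNot
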